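import Pool.Agent.Helper473.LY.Final

/-!
# The Lawson–Yau problem has a negative answer in every dimension `n ≥ 3`

For every `n ≥ 3` there are closed `n`-dimensional Riemannian manifolds `N`, `M` with negative
sectional curvature, a homotopy equivalence `f : N → M` and a harmonic map `u : N → M` homotopic to
`f` which is not injective (`¬ LawsonYauInj n`), in particular not a diffeomorphism
(`¬ LawsonYau n`).
-/

set_option autoImplicit false

namespace Pool.Agent.Results.MP_dbccd7_gt.LawsonYauFalse

theorem result : ∀ n : ℕ, 3 ≤ n →
    ¬ Pool.Agent.Helper473.LY.LawsonYau n ∧ ¬ Pool.Agent.Helper473.LY.LawsonYauInj n := by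
  intro n hn
  have h := Pool.Agent.Helper473.LY.not_lawsonYauInj n hn
  exact ⟨fun H => h H.inj, h⟩

end Pool.Agent.Results.MP_dbccd7_gt.LawsonYauFalse
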